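import Pool.Agent.Q261.AS.Big2

/-!
# The points whose asymptotic set under the Gauss map has dimension one half

`Q261.CFD.gauss x = Int.fract x⁻¹` is the Gauss map and `Q261.Asy.AS x` is the asymptotic set of `x`.
-/

set_option autoImplicit false

namespace Pool.Agent.Results.MP_034ad4_an.DimensionOne

open Set Q261.Asy

/-- **Main result**: the set of the points `x ∈ [0, 1)` whose asymptotic set under the Gauss map has
Hausdorff dimension exactly `1 / 2` has Hausdorff dimension `1`. -/
theorem result : dimH {x : ℝ | x ∈ Ico (0 : ℝ) 1 ∧ dimH (AS x) = 1 / 2} = 1 :=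
  dimH_half

end Pool.Agent.Results.MP_034ad4_an.DimensionOne
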